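import Mathlib

/-!
# Specialisation `x ↦ P(t) / Q(t)` is injective on finite dimensional spaces of polynomials
-/

namespace Pool.Agent.Helper45.SYM

open Polynomial

universe u

variable {k M : Type u} [Field k] [Field M] [Algebra k M]

/-- The conclusion of `legendre_escape`, for all `δ`. -/
def LegEsc (Λ c : k[X]) : Prop :=
  ∀ δ : ℕ, ∃ P Q S T : k[X], Q ≠ 0 ∧ S ≠ 0 ∧ T ≠ 0 ∧
    P * (P - Q) * (P - Λ * Q) * T ^ 2 = c * (c - 1) * (c - Λ) * S ^ 2 * Q ^ 3 ∧
    ∀ f : k[X][X], f ≠ 0 → (∀ i, (f.coeff i).natDegree ≤ δ) →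
      ∑ i ∈ Finset.range (f.natDegree + 1), f.coeff i * P ^ i * Q ^ (f.natDegree - i) ≠ 0

theorem aeval_ne_zero {t : M} (ht : Transcendental k t) {p : k[X]} (hp : p ≠ 0) :
    aeval t p ≠ 0 := fun h => hp (transcendental_iff.1 ht p h)

/-- Common denominators in `k(t)`. -/
theorem common_denom {t : M} (Z : Finset M)
    (hZ : ∀ z ∈ Z, z ∈ IntermediateField.adjoin k {t}) :
    ∃ q : k[X], aeval t q ≠ 0 ∧ ∀ z ∈ Z, ∃ p : k[X], z * aeval t q = aeval t p := by
  classical
  induction Z using Finset.induction_on with
  | empty => exact ⟨1, by simp, by simp⟩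
  | insert a s ha ih =>
    obtain ⟨q, hq, h⟩ := ih (fun z hz => hZ z (Finset.mem_insert_of_mem hz))
    obtain ⟨r, d, hrd⟩ := (IntermediateField.mem_adjoin_simple_iff k a).1
      (hZ a (Finset.mem_insert_self a s))
    by_cases hd : aeval t d = 0
    · refine ⟨q, hq, fun z hz => ?_⟩
      rcases Finset.mem_insert.1 hz with rfl | hz
      · exact ⟨0, by rw [hrd, hd]; simp⟩
      · exact h z hz
    · refine ⟨q * d, by rw [map_mul]; exact mul_ne_zero hq hd, fun z hz => ?_⟩
      rcases Finset.mem_insert.1 hz with rfl | hz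
      · exact ⟨r * q, by rw [hrd, map_mul, map_mul]; field_simp⟩
      · obtain ⟨p, hp⟩ := h z hz
        exact ⟨p * d, by rw [map_mul, map_mul, ← hp]; ring⟩

theorem escape_poly {t : M} (ht : Transcendental k t) {Λ c : k[X]} (hL : LegEsc Λ c)
    (V : Submodule k M[X]) (hV : V.FG) :
    ∃ P Q S T : k[X], Q ≠ 0 ∧ S ≠ 0 ∧ T ≠ 0 ∧
      P * (P - Q) * (P - Λ * Q) * T ^ 2 = c * (c - 1) * (c - Λ) * S ^ 2 * Q ^ 3 ∧
      ∀ v ∈ V, v.eval (aeval t P / aeval t Q) = 0 → v = 0 := by
  classical
  obtain ⟨s, hs⟩ := hV
  let E := IntermediateField.adjoin k {t}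
  let b := Module.Basis.ofVectorSpace E M
  -- the finite set of coordinates
  let Z : Finset M := s.biUnion fun f => f.support.biUnion fun j =>
    (b.repr (f.coeff j)).support.image fun l => ((b.repr (f.coeff j) l : E) : M)
  have hZE : ∀ z ∈ Z, z ∈ IntermediateField.adjoin k {t} := by
    intro z hz
    simp only [Z, Finset.mem_biUnion, Finset.mem_image] at hz
    obtain ⟨f, -, j, -, l, -, rfl⟩ := hz
    exact (b.repr (f.coeff j) l).2
  obtain ⟨q, hq, hqZ⟩ := common_denom Z hZE
  choose! pz hpz using hqZ
  let pc : M → k[X] := fun z => if z = 0 then 0 else pz z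
  have hpc : ∀ z, (z = 0 ∨ z ∈ Z) → z * aeval t q = aeval t (pc z) := by
    intro z hz
    by_cases h0 : z = 0
    · simp [pc, h0]
    · rcases hz with h | h
      · exact absurd h h0
      · simp only [pc, if_neg h0]; exact hpz z h
  let δ : ℕ := Z.sup fun z => (pz z).natDegree
  have hδ : ∀ z, (z = 0 ∨ z ∈ Z) → (pc z).natDegree ≤ δ := by
    intro z hz
    by_cases h0 : z = 0
    · simp [pc, h0]
    · rcases hz with h | h
      · exact absurd h h0
      · simp only [pc, if_neg h0]; exact Finset.le_sup (f := fun z => (pz z).natDegree) h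
  have hcoord : ∀ f ∈ s, ∀ j l, ((b.repr (f.coeff j) l : E) : M) = 0 ∨
      ((b.repr (f.coeff j) l : E) : M) ∈ Z := by
    intro f hf j l
    by_cases h0 : ((b.repr (f.coeff j) l : E) : M) = 0
    · exact Or.inl h0
    · right
      simp only [Z, Finset.mem_biUnion, Finset.mem_image]
      refine ⟨f, hf, j, ?_, l, ?_, rfl⟩
      · rw [mem_support_iff]
        intro h
        apply h0
        rw [h]; simp
      · rw [Finsupp.mem_support_iff]
        intro h
        apply h0
        rw [h]; simp
  obtain ⟨P, Q, S, T, hQ, hS, hT, heq, hesc⟩ := hL δ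
  refine ⟨P, Q, S, T, hQ, hS, hT, heq, ?_⟩
  -- the coordinate polynomials
  have hF : ∀ v ∈ V, ∀ l, ∃ F : k[X][X],
      (∀ j, aeval t (F.coeff j) = ((b.repr (v.coeff j) l : E) : M) * aeval t q) ∧
      ∀ j, (F.coeff j).natDegree ≤ δ := by
    intro v hv l
    rw [← hs] at hv
    induction hv using Submodule.span_induction with
    | mem f hf =>
      refine ⟨∑ j ∈ f.support, monomial j (pc ((b.repr (f.coeff j) l : E) : M)), ?_, ?_⟩
      · intro j
        rw [finsetSum_coeff]
        simp only [coeff_monomial]
        rw [Finset.sum_ite_eq']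
        split_ifs with h
        · rw [hpc _ (hcoord f hf j l)]
        · rw [notMem_support_iff.1 h]; simp
      · intro j
        rw [finsetSum_coeff]
        simp only [coeff_monomial]
        rw [Finset.sum_ite_eq']
        split_ifs with h
        · exact hδ _ (hcoord f hf j l)
        · simp
    | zero => exact ⟨0, by simp, by simp⟩
    | add x y _ _ hx hy =>
      obtain ⟨F, hF1, hF2⟩ := hx
      obtain ⟨G, hG1, hG2⟩ := hy
      refine ⟨F + G, fun j => ?_, fun j => ?_⟩
      · rw [coeff_add, map_add, hF1, hG1, coeff_add, map_add, Finsupp.add_apply,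
          IntermediateField.coe_add]
        ring
      · rw [coeff_add]
        exact (natDegree_add_le _ _).trans (max_le (hF2 j) (hG2 j))
    | smul a x _ hx =>
      obtain ⟨F, hF1, hF2⟩ := hx
      refine ⟨C (C a) * F, fun j => ?_, fun j => ?_⟩
      · rw [coeff_C_mul, map_mul, hF1, coeff_smul, aeval_C]
        have h1 : (a • x.coeff j : M) = (algebraMap k E a) • x.coeff j := by
          rw [Algebra.smul_def, Algebra.smul_def, ← IsScalarTower.algebraMap_apply k E M]
        rw [h1, map_smul, Finsupp.smul_apply, smul_eq_mul, IntermediateField.coe_mul]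
        rw [show ((algebraMap k E a : E) : M) = algebraMap k M a from rfl]
        ring
      · rw [coeff_C_mul]
        exact (natDegree_C_mul_le _ _).trans (hF2 j)
  intro v hv h0
  have hQt : aeval t Q ≠ 0 := aeval_ne_zero ht hQ
  have hξE : aeval t P / aeval t Q ∈ E :=
    (IntermediateField.mem_adjoin_simple_iff k _).2 ⟨P, Q, rfl⟩
  set ξ : M := aeval t P / aeval t Q with hξ
  -- coordinates of the value
  have hval : ∀ l (N : ℕ), v.natDegree < N →
      ∑ j ∈ Finset.range N, ((b.repr (v.coeff j) l : E) : M) * ξ ^ j = 0 := by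
    intro l N hN
    have h1 : b.repr (v.eval ξ) l = 0 := by rw [h0]; simp
    rw [eval_eq_sum_range' hN] at h1
    have h2 : ∀ j, v.coeff j * ξ ^ j = ((⟨ξ, hξE⟩ : E) ^ j) • v.coeff j := by
      intro j
      rw [Algebra.smul_def, map_pow, mul_comm]
      rfl
    simp only [h2] at h1
    rw [map_sum, Finsupp.finsetSum_apply] at h1
    have h3 := congrArg (fun z : E => (z : M)) h1
    simp only [map_smul, Finsupp.smul_apply, smul_eq_mul] at h3
    rw [ZeroMemClass.coe_zero] at h3
    rw [← h3]
    have h4 : ∀ w : ℕ → E, ((∑ j ∈ Finset.range N, w j : E) : M) =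
        ∑ j ∈ Finset.range N, ((w j : E) : M) := by
      intro w
      exact map_sum (algebraMap E M) w (Finset.range N)
    rw [h4]
    refine Finset.sum_congr rfl fun j _ => ?_
    rw [IntermediateField.coe_mul, mul_comm]
    rfl
  ext j
  rw [coeff_zero]
  have hrep : b.repr (v.coeff j) = 0 := by
    ext l
    obtain ⟨F, hF1, hF2⟩ := hF v hv l
    have hF0 : F = 0 := by
      by_contra hne
      have h1 := hesc F hne hF2
      apply h1
      have h2 : aeval t (∑ i ∈ Finset.range (F.natDegree + 1),
          F.coeff i * P ^ i * Q ^ (F.natDegree - i)) = 0 := by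
        rw [map_sum]
        have h3 : ∀ i ∈ Finset.range (F.natDegree + 1),
            aeval t (F.coeff i * P ^ i * Q ^ (F.natDegree - i)) =
            aeval t q * aeval t Q ^ F.natDegree *
              (((b.repr (v.coeff i) l : E) : M) * ξ ^ i) := by
          intro i hi
          have hi' : i ≤ F.natDegree := Nat.lt_succ_iff.1 (Finset.mem_range.1 hi)
          rw [map_mul, map_mul, map_pow, map_pow, hF1]
          rw [hξ, div_pow]
          have : aeval t Q ^ F.natDegree = aeval t Q ^ (F.natDegree - i) * aeval t Q ^ i := by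
            rw [← pow_add]; congr 1; omega
          rw [this]
          field_simp
        rw [Finset.sum_congr rfl h3, ← Finset.mul_sum]
        set N := max F.natDegree v.natDegree + 1 with hN
        have h5 : ∑ i ∈ Finset.range (F.natDegree + 1),
            ((b.repr (v.coeff i) l : E) : M) * ξ ^ i =
            ∑ i ∈ Finset.range N, ((b.repr (v.coeff i) l : E) : M) * ξ ^ i := by
          apply Finset.sum_subset
          · intro i hi
            rw [Finset.mem_range] at hi ⊢
            have := le_max_left F.natDegree v.natDegree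
            omega
          · intro i _ hi
            rw [Finset.mem_range] at hi
            have h6 : F.coeff i = 0 := coeff_eq_zero_of_natDegree_lt (by omega)
            have h7 := hF1 i
            rw [h6, map_zero] at h7
            rcases mul_eq_zero.1 h7.symm with h | h
            · rw [h, zero_mul]
            · exact absurd h hq
        rw [h5, hval l N (by have := le_max_right F.natDegree v.natDegree; omega), mul_zero]
      exact transcendental_iff.1 ht _ h2
    have h8 := hF1 j
    rw [hF0, coeff_zero, map_zero] at h8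
    rcases mul_eq_zero.1 h8.symm with h | h
    · rw [Finsupp.zero_apply]
      exact_mod_cast h
    · exact absurd h hq
  exact (LinearEquiv.map_eq_zero_iff b.repr).1 hrep

end Pool.Agent.Helper45.SYM
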