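import Mathlib
import Pool.Agent.Helper45.SYM.D5a

/-!
# Specialisation of the function field of an elliptic curve over a function field
-/

namespace Pool.Agent.Helper45.SYM

open Polynomial

universe u

section Quad

variable {k B M : Type u} [Field k] [Field B] [Field M] [Algebra k B] [Algebra B M] [Algebra k M]
  [IsScalarTower k B M]

/-- The polynomial `Y ^ 2 - F`. -/
noncomputable def quadPoly (F : B[X]) : B[X][X] := X ^ 2 - C F

theorem quadPoly_monic (F : B[X]) : (quadPoly F).Monic := by
  unfold quadPoly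
  exact monic_X_pow_sub_C F two_ne_zero

theorem quadPoly_natDegree (F : B[X]) : (quadPoly F).natDegree = 2 := by
  unfold quadPoly
  exact natDegree_X_pow_sub_C

/-- `x ↦ x'`, `y ↦ y'`. -/
noncomputable def quadHom (F : B[X]) (x' y' : M) (h : y' ^ 2 = aeval x' F) :
    AdjoinRoot (quadPoly F) →ₐ[k] M :=
  AdjoinRoot.liftAlgHom (quadPoly F) ((aeval x' : B[X] →ₐ[B] M).restrictScalars k) y' (by
    simp [quadPoly, h])

theorem quadHom_of (F : B[X]) (x' y' : M) (h : y' ^ 2 = aeval x' F) (f : B[X]) :
    quadHom (k := k) F x' y' h (AdjoinRoot.of (quadPoly F) f) = aeval x' f := by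
  simp [quadHom]

theorem quadHom_root (F : B[X]) (x' y' : M) (h : y' ^ 2 = aeval x' F) :
    quadHom (k := k) F x' y' h (AdjoinRoot.root (quadPoly F)) = y' := by
  simp [quadHom]

theorem quad_repr (F : B[X]) (m : AdjoinRoot (quadPoly F)) : ∃ f g : B[X],
    m = AdjoinRoot.of (quadPoly F) f + AdjoinRoot.of (quadPoly F) g * AdjoinRoot.root _ := by
  obtain ⟨p, rfl⟩ := AdjoinRoot.mk_surjective m
  have h1 : AdjoinRoot.mk (quadPoly F) p = AdjoinRoot.mk (quadPoly F) (p %ₘ quadPoly F) := by
    conv_lhs => rw [← modByMonic_add_div p (quadPoly F)]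
    rw [map_add, map_mul, AdjoinRoot.mk_self, zero_mul, add_zero]
  have h2 : (p %ₘ quadPoly F).natDegree ≤ 1 := by
    have := natDegree_modByMonic_lt p (quadPoly_monic F) (by
      intro h
      have := quadPoly_natDegree F
      rw [h] at this
      simp at this)
    rw [quadPoly_natDegree] at this
    omega
  refine ⟨(p %ₘ quadPoly F).coeff 0, (p %ₘ quadPoly F).coeff 1, ?_⟩
  rw [h1]
  conv_lhs => rw [eq_X_add_C_of_natDegree_le_one h2]
  rw [map_add, map_mul, AdjoinRoot.mk_X, AdjoinRoot.mk_C, AdjoinRoot.mk_C]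
  ring

theorem quadHom_repr (F : B[X]) (x' y' : M) (h : y' ^ 2 = aeval x' F) (f g : B[X]) :
    quadHom (k := k) F x' y' h (AdjoinRoot.of (quadPoly F) f +
      AdjoinRoot.of (quadPoly F) g * AdjoinRoot.root _) = aeval x' f + aeval x' g * y' := by
  rw [map_add, map_mul, quadHom_of, quadHom_of, quadHom_root]

theorem quadHom_injective (F : B[X]) (hF : Odd F.natDegree) (x y : M) (h : y ^ 2 = aeval x F)
    (hx : Transcendental B x) : Function.Injective (quadHom (k := k) F x y h) := by
  rw [injective_iff_map_eq_zero]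
  intro m hm
  obtain ⟨f, g, rfl⟩ := quad_repr F m
  rw [quadHom_repr] at hm
  have h1 : aeval x (f ^ 2 - g ^ 2 * F) = 0 := by
    rw [map_sub, map_mul, map_pow, map_pow, ← h]
    have : aeval x f = - (aeval x g * y) := eq_neg_of_add_eq_zero_left hm
    rw [this]; ring
  have h2 := transcendental_iff.1 hx _ h1
  have hg : g = 0 := by
    by_contra hg
    have hF0 : F ≠ 0 := by
      rintro rfl
      simp at hF
    have h3 : f ^ 2 = g ^ 2 * F := sub_eq_zero.1 h2
    have h4 := congrArg natDegree h3
    rw [natDegree_pow, natDegree_mul (pow_ne_zero 2 hg) hF0, natDegree_pow] at h4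
    obtain ⟨r, hr⟩ := hF
    omega
  subst hg
  have hf : f = 0 := by
    have : f ^ 2 = 0 := by simpa using h2
    exact pow_eq_zero_iff two_ne_zero |>.1 this
  subst hf
  simp

end Quad

end Pool.Agent.Helper45.SYM
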