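import Mathlib
import Pool.Agent.Helper45.SYM.D5b

/-!
# Specialisation of the function field of an elliptic curve over a function field, II
-/

namespace Pool.Agent.Helper45.SYM

open Polynomial

universe u

variable {k B M : Type u} [Field k] [Field B] [Field M] [Algebra k B] [Algebra B M] [Algebra k M]
  [IsScalarTower k B M]

theorem escape_abs (F : B[X]) (hF : Odd F.natDegree) (x y η : M) (hy : y ^ 2 = aeval x F)
    (hx : Transcendental B x) (hη : η ∉ Set.range (algebraMap B M))
    (H : ∀ V : Submodule k M[X], V.FG → ∃ ξ s : B, s ≠ 0 ∧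
      (algebraMap B M s * η) ^ 2 = aeval (algebraMap B M ξ) F ∧
      ∀ v ∈ V, v.eval (algebraMap B M ξ) = 0 → v = 0)
    (A : Subalgebra k M) (hA : A.FG)
    (hAE : ∀ a ∈ A, a ∈ IntermediateField.adjoin k (Set.range (algebraMap B M) ∪ {x, y}))
    (W : Submodule k A) (hW : W.FG) (L : IntermediateField k M)
    (hBL : ∀ b : B, algebraMap B M b ∈ L) (hηL : η ∈ L) :
    ∃ ψ : A →ₐ[k] M, (∀ a, ψ a ∈ L) ∧ ∀ a ∈ W, ψ a = 0 → a = 0 := by
  classical
  let R := AdjoinRoot (quadPoly F)
  let j : R →ₐ[k] M := quadHom (k := k) F x y hy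
  have hj : Function.Injective j := quadHom_injective F hF x y hy hx
  have : IsDomain R := hj.isDomain j.toRingHom
  -- fractions
  have hfrac : ∀ a ∈ IntermediateField.adjoin k (Set.range (algebraMap B M) ∪ {x, y}),
      ∃ m d : R, d ≠ 0 ∧ a * j d = j m := by
    let jf : FractionRing R →ₐ[k] M := IsFractionRing.liftAlgHom (K := FractionRing R) hj
    have hjf : ∀ r : R, jf (algebraMap R (FractionRing R) r) = j r := by
      intro r
      rw [IsFractionRing.liftAlgHom_apply, IsFractionRing.lift_algebraMap]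
      rfl
    have hle : IntermediateField.adjoin k (Set.range (algebraMap B M) ∪ {x, y}) ≤
        jf.fieldRange := by
      rw [IntermediateField.adjoin_le_iff]
      rintro a (⟨b, rfl⟩ | ha)
      · refine ⟨algebraMap R (FractionRing R) (AdjoinRoot.of (quadPoly F) (C b)), ?_⟩
        change jf _ = _
        rw [hjf, quadHom_of, aeval_C]
      · rcases ha with rfl | ha
        · refine ⟨algebraMap R (FractionRing R) (AdjoinRoot.of (quadPoly F) X), ?_⟩
          change jf _ = _
          rw [hjf, quadHom_of, aeval_X]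
        · rw [Set.mem_singleton_iff] at ha
          subst ha
          refine ⟨algebraMap R (FractionRing R) (AdjoinRoot.root (quadPoly F)), ?_⟩
          change jf _ = _
          rw [hjf, quadHom_root]
    intro a ha
    obtain ⟨z, hz⟩ := hle ha
    change jf z = a at hz
    obtain ⟨m, d, hd, hmd⟩ := IsFractionRing.div_surjective R z
    have hd0 : d ≠ 0 := nonZeroDivisors.ne_zero hd
    refine ⟨m, d, hd0, ?_⟩
    rw [← hz, ← hmd, map_div₀, hjf, hjf]
    have : j d ≠ 0 := fun h => hd0 (hj (by rw [h, map_zero]))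
    field_simp
  -- a common denominator for `A`
  obtain ⟨S, hS⟩ := hA
  have hS1 : ∀ a ∈ S, ∃ m d : R, d ≠ 0 ∧ a * j d = j m := fun a ha =>
    hfrac a (hAE a (hS ▸ Algebra.subset_adjoin ha))
  choose! m d hd0 hmd using hS1
  let D : R := ∏ a ∈ S, d a
  have hD0 : D ≠ 0 := Finset.prod_ne_zero_iff.2 hd0
  have hjD0 : j D ≠ 0 := fun h => hD0 (hj (by rw [h, map_zero]))
  have hSD : ∀ a ∈ S, ∃ r : R, a * j D = j r := by
    intro a ha
    refine ⟨m a * ∏ b ∈ S.erase a, d b, ?_⟩
    rw [map_mul, ← hmd a ha, mul_assoc, ← map_mul, Finset.mul_prod_erase S d ha]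
  let Loc := Localization (Submonoid.powers D)
  have hunit : ∀ (g : R →ₐ[k] M), g D ≠ 0 → ∀ y : Submonoid.powers D, IsUnit (g y) := by
    rintro g hg ⟨_, n, rfl⟩
    rw [isUnit_iff_ne_zero]
    simp only [map_pow]
    exact pow_ne_zero n hg
  let jL : Loc →ₐ[k] M := IsLocalization.liftAlgHom (M := Submonoid.powers D) (hunit j hjD0)
  have hlift : ∀ (g : R →ₐ[k] M) (hg : g D ≠ 0) (r : R),
      (IsLocalization.liftAlgHom (M := Submonoid.powers D) (S := Loc) (hunit g hg))
        (algebraMap R Loc r) = g r := by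
    intro g hg r
    rw [IsLocalization.liftAlgHom_apply, IsLocalization.lift_eq]
    rfl
  have hmkz : ∀ z : Loc, ∃ (r : R) (b : Submonoid.powers D),
      z * algebraMap R Loc b = algebraMap R Loc r := by
    intro z
    obtain ⟨⟨r, b⟩, h⟩ := IsLocalization.surj (Submonoid.powers D) z
    exact ⟨r, b, h⟩
  have hjL : Function.Injective jL := by
    rw [injective_iff_map_eq_zero]
    intro z hz
    obtain ⟨r, b, h⟩ := hmkz z
    have h1 := congrArg jL h
    rw [map_mul, hz, zero_mul] at h1
    have h2 : j r = 0 := by rw [← hlift j hjD0 r]; exact h1.symm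
    have h3 : r = 0 := hj (by rw [h2, map_zero])
    rw [h3, map_zero] at h
    have h4 : IsUnit (algebraMap R Loc b) := IsLocalization.map_units Loc b
    exact (h4.mul_left_eq_zero).1 h
  have hAle : A ≤ jL.range := by
    rw [← hS, Algebra.adjoin_le_iff]
    intro a ha
    obtain ⟨r, hr⟩ := hSD a ha
    refine ⟨IsLocalization.mk' Loc r ⟨D, Submonoid.mem_powers D⟩, ?_⟩
    change jL _ = a
    have h1 := IsLocalization.mk'_spec Loc r (⟨D, Submonoid.mem_powers D⟩ : Submonoid.powers D)
    have h2 := congrArg jL h1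
    rw [map_mul] at h2
    have h3 : jL (algebraMap R Loc D) = j D := hlift j hjD0 D
    have h4 : jL (algebraMap R Loc r) = j r := hlift j hjD0 r
    change jL _ * jL (algebraMap R Loc D) = _ at h2
    rw [h3, h4, ← hr] at h2
    exact mul_right_cancel₀ hjD0 h2
  let θ : A →ₐ[k] Loc :=
    ((AlgEquiv.ofInjective jL hjL).symm : jL.range →ₐ[k] Loc).comp (Subalgebra.inclusion hAle)
  have hθ : ∀ a : A, jL (θ a) = a := by
    intro a
    have h1 := (AlgEquiv.ofInjective jL hjL).apply_symm_apply (Subalgebra.inclusion hAle a)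
    have h2 := congrArg Subtype.val h1
    exact h2
  -- the finite dimensional subspace
  obtain ⟨w, hw⟩ := hW
  obtain ⟨b, hb⟩ := IsLocalization.exist_integer_multiples_of_finset (Submonoid.powers D)
    (w.image θ)
  have hb' : ∀ a ∈ w, ∃ r : R, algebraMap R Loc r = (b : R) • θ a := by
    intro a ha
    obtain ⟨r, hr⟩ := hb (θ a) (Finset.mem_image_of_mem θ ha)
    exact ⟨r, hr⟩
  choose! rr hrr using hb'
  let V0 : Submodule k R := Submodule.span k (↑(insert D (w.image rr)) : Set R)
  have hV0 : ∀ a ∈ W, ∃ r ∈ V0, algebraMap R Loc r = (b : R) • θ a := by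
    intro a ha
    rw [← hw] at ha
    induction ha using Submodule.span_induction with
    | mem a ha => exact ⟨rr a, Submodule.subset_span (by
        rw [Finset.coe_insert, Finset.coe_image]
        exact Set.mem_insert_of_mem _ (Set.mem_image_of_mem _ ha)), hrr a ha⟩
    | zero => exact ⟨0, V0.zero_mem, by simp⟩
    | add a a' _ _ h h' =>
      obtain ⟨r, hr, e⟩ := h
      obtain ⟨r', hr', e'⟩ := h'
      exact ⟨r + r', V0.add_mem hr hr', by rw [map_add, e, e', map_add, smul_add]⟩
    | smul c a _ h =>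
      obtain ⟨r, hr, e⟩ := h
      refine ⟨c • r, V0.smul_mem c hr, ?_⟩
      rw [Algebra.smul_def c r, map_mul, ← IsScalarTower.algebraMap_apply k R Loc,
        ← Algebra.smul_def, e, map_smul θ, smul_comm]
  -- the polynomials
  choose ff gg hfg using quad_repr F
  let VX : Submodule k M[X] := Submodule.span k
    (↑((insert D (w.image rr)).image (fun r => (ff r).map (algebraMap B M)) ∪
      (insert D (w.image rr)).image (fun r => (gg r).map (algebraMap B M))) : Set M[X])
  obtain ⟨ξ, s, hs0, hsη, hesc⟩ := H VX ⟨_, rfl⟩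
  have hVX : ∀ v ∈ V0, ∃ f g : B[X],
      v = AdjoinRoot.of (quadPoly F) f + AdjoinRoot.of (quadPoly F) g * AdjoinRoot.root _ ∧
      f.map (algebraMap B M) ∈ VX ∧ g.map (algebraMap B M) ∈ VX := by
    intro v hv
    induction hv using Submodule.span_induction with
    | mem v hv =>
      refine ⟨ff v, gg v, hfg v, Submodule.subset_span ?_, Submodule.subset_span ?_⟩
      · rw [Finset.coe_union]
        exact Or.inl (by rw [Finset.coe_image]; exact Set.mem_image_of_mem _ hv)
      · rw [Finset.coe_union]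
        exact Or.inr (by rw [Finset.coe_image]; exact Set.mem_image_of_mem _ hv)
    | zero => exact ⟨0, 0, by simp, by simp, by simp⟩
    | add a a' _ _ h h' =>
      obtain ⟨f, g, e, hf, hg⟩ := h
      obtain ⟨f', g', e', hf', hg'⟩ := h'
      refine ⟨f + f', g + g', ?_, ?_, ?_⟩
      · rw [e, e', map_add, map_add]; ring
      · rw [Polynomial.map_add]; exact VX.add_mem hf hf'
      · rw [Polynomial.map_add]; exact VX.add_mem hg hg'
    | smul c a _ h =>
      obtain ⟨f, g, e, hf, hg⟩ := h
      have hc : ∀ f : B[X], (C (algebraMap k B c) * f).map (algebraMap B M) =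
          c • f.map (algebraMap B M) := by
        intro f
        rw [Polynomial.map_mul, map_C, ← IsScalarTower.algebraMap_apply k B M, ← smul_eq_C_mul,
          algebraMap_smul]
      refine ⟨C (algebraMap k B c) * f, C (algebraMap k B c) * g, ?_, ?_, ?_⟩
      · rw [e, Algebra.smul_def, map_mul, map_mul]
        have : algebraMap k (AdjoinRoot (quadPoly F)) c =
            AdjoinRoot.of (quadPoly F) (C (algebraMap k B c)) := rfl
        rw [this]; ring
      · rw [hc]; exact VX.smul_mem c hf
      · rw [hc]; exact VX.smul_mem c hg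
  let π : R →ₐ[k] M := quadHom (k := k) F (algebraMap B M ξ) (algebraMap B M s * η) hsη
  have hev : ∀ f : B[X], aeval (algebraMap B M ξ) f = algebraMap B M (f.eval ξ) := by
    intro f
    rw [aeval_algebraMap_apply]
    simp
  have hev' : ∀ f : B[X], (f.map (algebraMap B M)).eval (algebraMap B M ξ) =
      algebraMap B M (f.eval ξ) := by
    intro f
    rw [eval_map, ← aeval_def, hev]
  have hsM : algebraMap B M s ≠ 0 := by
    rw [Ne, map_eq_zero]; exact hs0
  have hπ : ∀ v ∈ V0, π v = 0 → v = 0 := by
    intro v hv h0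
    obtain ⟨f, g, rfl, hf, hg⟩ := hVX v hv
    change quadHom (k := k) F _ _ hsη _ = 0 at h0
    rw [quadHom_repr, hev, hev] at h0
    have hg0 : g.eval ξ = 0 := by
      by_contra hne
      apply hη
      refine ⟨- f.eval ξ / (g.eval ξ * s), ?_⟩
      have hg' : algebraMap B M (g.eval ξ) ≠ 0 := by rw [Ne, map_eq_zero]; exact hne
      rw [map_div₀, map_mul, map_neg]
      field_simp
      linear_combination - h0
    rw [hg0, map_zero, zero_mul, add_zero] at h0
    have h1 := hesc _ hf (by rw [hev', h0])
    have h2 := hesc _ hg (by rw [hev', hg0, map_zero])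
    have h3 : f = 0 := (Polynomial.map_eq_zero (algebraMap B M)).1 h1
    have h4 : g = 0 := (Polynomial.map_eq_zero (algebraMap B M)).1 h2
    rw [h3, h4]; simp
  have hπD : π D ≠ 0 := fun h => hD0 (hπ D (Submodule.subset_span (by simp)) h)
  let πL : Loc →ₐ[k] M := IsLocalization.liftAlgHom (M := Submonoid.powers D) (hunit π hπD)
  have hπR : ∀ r : R, π r ∈ L := by
    intro r
    rw [hfg r]
    change quadHom (k := k) F _ _ hsη _ ∈ L
    rw [quadHom_repr, hev, hev]
    exact L.add_mem (hBL _) (L.mul_mem (hBL _) (L.mul_mem (hBL _) hηL))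
  have hbpow : ∀ b : Submonoid.powers D, π b ≠ 0 := fun b => (hunit π hπD b).ne_zero
  refine ⟨πL.comp θ, fun a => ?_, fun a ha h0 => ?_⟩
  · obtain ⟨r, b, h⟩ := hmkz (θ a)
    have h1 := congrArg πL h
    rw [map_mul] at h1
    have h2 : πL (algebraMap R Loc b) = π b := hlift π hπD b
    have h3 : πL (algebraMap R Loc r) = π r := hlift π hπD r
    rw [h2, h3] at h1
    rw [AlgHom.comp_apply, eq_div_of_mul_eq (hbpow b) h1]
    exact L.div_mem (hπR r) (hπR b)
  · rw [AlgHom.comp_apply] at h0
    obtain ⟨r, hr, e⟩ := hV0 a ha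
    have h1 := congrArg πL e
    have h3 : πL (algebraMap R Loc r) = π r := hlift π hπD r
    rw [h3, Algebra.smul_def, map_mul, h0, mul_zero] at h1
    have h4 : r = 0 := hπ r hr h1
    rw [h4, map_zero, Algebra.smul_def] at e
    have h5 := congrArg jL e
    rw [map_mul, hθ, map_zero] at h5
    have h6 : jL (algebraMap R Loc b) = j b := hlift j hjD0 b
    have h7 : j b ≠ 0 := (hunit j hjD0 b).ne_zero
    rw [h6] at h5
    rcases mul_eq_zero.1 h5.symm with h | h
    · exact absurd h h7
    · exact Subtype.ext h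

end Pool.Agent.Helper45.SYM
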