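import Mathlib
import Pool.Agent.Helper45.SYM.D5c
import Pool.Agent.Helper6.SYM.D1

/-!
# Escape for function fields (piece SYM-D5)
-/

namespace Pool.Agent.Helper45.SYM

open Polynomial

universe u

theorem escape {k Ω : Type u} [Field k] [CharZero k] [Field Ω] [Algebra k Ω]
    (t x y η : Ω) (Θ : Finset Ω) (Λ c : k[X]) (h0 : Λ ≠ 0) (h1 : Λ ≠ 1)
    (hc : 2 * Λ.natDegree + 1 ≤ c.natDegree) (ht : Transcendental k t)
    (hΘ : ∀ θ ∈ Θ, IsAlgebraic (IntermediateField.adjoin k {t}) θ)
    (hx : Transcendental (IntermediateField.adjoin k (insert t (Θ : Set Ω))) x)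
    (hy : y ^ 2 = x * (x - 1) * (x - aeval t Λ))
    (hη : η ^ 2 = aeval t (c * (c - 1) * (c - Λ)))
    (hη' : η ∉ IntermediateField.adjoin k (insert t (Θ : Set Ω)))
    (A : Subalgebra k Ω) (hA : A.FG)
    (hAE : ∀ a ∈ A, a ∈ IntermediateField.adjoin k ({t, x, y} ∪ (Θ : Set Ω)))
    (W : Submodule k A) (hW : W.FG) :
    ∃ ψ : A →ₐ[k] IntermediateField.adjoin k (insert η (insert t (Θ : Set Ω))),
      ∀ a ∈ W, ψ a = 0 → a = 0 := by
  classical
  let B := IntermediateField.adjoin k (insert t (Θ : Set Ω))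
  let L := IntermediateField.adjoin k (insert η (insert t (Θ : Set Ω)))
  have htB : t ∈ B := IntermediateField.subset_adjoin k _ (Set.mem_insert _ _)
  let t0 : B := ⟨t, htB⟩
  have ht0 : algebraMap B Ω t0 = t := rfl
  have hae : ∀ p : k[X], algebraMap B Ω (aeval t0 p) = aeval t p := by
    intro p
    rw [← aeval_algebraMap_apply, ht0]
  let F : B[X] := X * (X - 1) * (X - C (aeval t0 Λ))
  have hFdeg : F.natDegree = 3 := by
    have e : F = X * (X - C 1) * (X - C (aeval t0 Λ)) := by simp [F]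
    rw [e, natDegree_mul (mul_ne_zero X_ne_zero (X_sub_C_ne_zero _)) (X_sub_C_ne_zero _),
      natDegree_mul X_ne_zero (X_sub_C_ne_zero _), natDegree_X, natDegree_X_sub_C,
      natDegree_X_sub_C]
  have hF : Odd F.natDegree := by rw [hFdeg]; decide
  have hFx : ∀ z : Ω, aeval z F = z * (z - 1) * (z - aeval t Λ) := by
    intro z
    simp only [F, map_mul, map_sub, aeval_X, map_one, aeval_C, hae]
  have hyF : y ^ 2 = aeval x F := by rw [hy, hFx]
  have hηr : η ∉ Set.range (algebraMap B Ω) := by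
    rintro ⟨b, rfl⟩
    exact hη' b.2
  have hL : LegEsc Λ c := fun δ => Pool.Agent.Helper6.SYM.legendre_escape Λ h0 h1 c hc δ
  have H : ∀ V : Submodule k (Polynomial Ω), V.FG → ∃ ξ s : B, s ≠ 0 ∧
      (algebraMap B Ω s * η) ^ 2 = aeval (algebraMap B Ω ξ) F ∧
      ∀ v ∈ V, v.eval (algebraMap B Ω ξ) = 0 → v = 0 := by
    intro V hV
    obtain ⟨P, Q, S, T, hQ, hS, hT, heq, hesc⟩ := escape_poly ht hL V hV
    have hQt := aeval_ne_zero ht hQ
    have hSt := aeval_ne_zero ht hS
    have hTt := aeval_ne_zero ht hT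
    have hξ : algebraMap B Ω (aeval t0 P / aeval t0 Q) = aeval t P / aeval t Q := by
      rw [map_div₀, hae, hae]
    refine ⟨aeval t0 P / aeval t0 Q, aeval t0 S / aeval t0 T, ?_, ?_, ?_⟩
    · intro h
      have h2 := congrArg (algebraMap B Ω) h
      rw [map_div₀, hae, hae, map_zero] at h2
      exact (div_ne_zero hSt hTt) h2
    · rw [hξ, hFx, map_div₀, hae, hae, mul_pow, hη]
      have h2 := congrArg (aeval t) heq
      simp only [map_mul, map_sub, map_pow, map_one] at h2 ⊢
      field_simp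
      linear_combination - h2
    · rw [hξ]
      exact hesc
  have hle : IntermediateField.adjoin k ({t, x, y} ∪ (Θ : Set Ω)) ≤
      IntermediateField.adjoin k (Set.range (algebraMap B Ω) ∪ {x, y}) := by
    rw [IntermediateField.adjoin_le_iff]
    intro z hz
    apply IntermediateField.subset_adjoin
    rcases hz with hz | hz
    · rcases hz with rfl | hz
      · exact Or.inl ⟨t0, rfl⟩
      · exact Or.inr hz
    · exact Or.inl ⟨⟨z, IntermediateField.subset_adjoin k _ (Set.mem_insert_of_mem _ hz)⟩, rfl⟩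
  have hBL : ∀ b : B, algebraMap B Ω b ∈ L := by
    intro b
    have h2 : B ≤ L := IntermediateField.adjoin.mono k _ _ (Set.subset_insert _ _)
    exact h2 b.2
  have hηL : η ∈ L := IntermediateField.subset_adjoin k _ (Set.mem_insert _ _)
  obtain ⟨ψ, hψ1, hψ2⟩ := escape_abs (k := k) (B := B) (M := Ω) F hF x y η hyF hx hηr H A hA
    (fun a ha => hle (hAE a ha)) W hW L hBL hηL
  refine ⟨ψ.codRestrict L.toSubalgebra hψ1, fun a ha h => hψ2 a ha ?_⟩
  have h2 := congrArg Subtype.val h
  exact h2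

end Pool.Agent.Helper45.SYM
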